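import Pool.Agent.H48.RN.Stmts3

set_option autoImplicit false
set_option linter.unusedSectionVars false
set_option linter.unusedTactic false
set_option linter.deprecated false

namespace Pool.RN

open Polynomial

section

variable {F : Type} [Field F] [Fintype F]

theorem CNV_vv_mul (P : F[X]) {f g : F[X]} (hf : f ≠ 0) (hg : g ≠ 0) :
    vv P (f * g) = vv P f + vv P g := by
  classical
  unfold vv
  rw [UniqueFactorizationMonoid.normalizedFactors_mul hf hg, Multiset.count_add]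

theorem CNV_mem_pf_iff {P f : F[X]} : P ∈ pf f ↔ 1 ≤ vv P f := by
  classical
  unfold pf vv
  rw [Multiset.mem_toFinset, Nat.one_le_iff_ne_zero, Multiset.count_ne_zero]

theorem CNV_not_mem_pf {P f : F[X]} (h : P ∉ pf f) : vv P f = 0 := by
  rw [CNV_mem_pf_iff] at h
  omega

open Classical in
theorem CNV_prod_nf {f : F[X]} (hf : f.Monic) :
    (UniqueFactorizationMonoid.normalizedFactors f).prod = f := by
  rw [UniqueFactorizationMonoid.prod_normalizedFactors_eq hf.ne_zero]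
  exact hf.normalize_eq_self

theorem CNV_prod_pow {f : F[X]} (hf : f.Monic) : ∏ P ∈ pf f, P ^ vv P f = f := by
  classical
  conv_rhs => rw [← CNV_prod_nf hf]
  unfold pf vv
  rw [Finset.prod_multiset_count]

theorem CNV_sqf {f : F[X]} (hf : f.Monic) (hs : Squarefree f) {P : F[X]} (hP : P ∈ pf f) :
    vv P f = 1 := by
  classical
  have h1 := CNV_mem_pf_iff.1 hP
  have h2 : (UniqueFactorizationMonoid.normalizedFactors f).Nodup :=
    (UniqueFactorizationMonoid.squarefree_iff_nodup_normalizedFactors hf.ne_zero).1 hs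
  have h3 := Multiset.nodup_iff_count_le_one.1 h2 P
  unfold vv at h1 ⊢
  omega

theorem CNV_sqf_prod {f : F[X]} (hf : f.Monic) (hs : Squarefree f) : ∏ P ∈ pf f, P = f := by
  conv_rhs => rw [← CNV_prod_pow hf]
  refine Finset.prod_congr rfl fun P hP => ?_
  rw [CNV_sqf hf hs hP, pow_one]

theorem CNV_pf_mul_left {f g : F[X]} (hf : f ≠ 0) (hg : g ≠ 0) : pf f ⊆ pf (f * g) := by
  intro P hP
  rw [CNV_mem_pf_iff] at hP ⊢
  rw [CNV_vv_mul P hf hg]
  omega

theorem CNV_cmul_prod {ψ : F[X] → ℂ} (h : CMul ψ) (s : Finset F[X]) (n : F[X] → ℕ) :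
    ψ (∏ P ∈ s, P ^ n P) = ∏ P ∈ s, ψ P ^ n P := by
  classical
  let φ : F[X] →* ℂ := ⟨⟨ψ, h.one⟩, h.mul⟩
  have h1 : ∀ x, φ x = ψ x := fun _ => rfl
  rw [← h1, map_prod]
  refine Finset.prod_congr rfl fun P _ => ?_
  rw [map_pow, h1]

theorem CNV_cmul_prod1 {ψ : F[X] → ℂ} (h : CMul ψ) (s : Finset F[X]) :
    ψ (∏ P ∈ s, P) = ∏ P ∈ s, ψ P := by
  have := CNV_cmul_prod h s (fun _ => 1)
  simpa using this

/-- The local factor. -/
noncomputable def CNV_hl (c ψ : F[X] → ℂ) (P : F[X]) (j : ℕ) : ℂ :=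
  open Classical in
  if c P = 1 then (1 - (j : ℂ)) * ψ P ^ j
  else if c P = -1 then (if Even j then ψ P ^ j else 0)
  else if j = 0 then 1 else 0

theorem CNV_hl_zero (c ψ : F[X] → ℂ) (P : F[X]) : CNV_hl c ψ P 0 = 1 := by
  unfold CNV_hl
  split_ifs <;> simp_all

theorem CNV_local {c ψ : F[X] → ℂ} {P : F[X]}
    (h : c P = 1 ∨ c P = -1 ∨ (c P = 0 ∧ ψ P = 0)) {j : ℕ} (hj : 1 ≤ j) :
    - (c P * ψ P) * CNV_hl c ψ P (j - 1) + CNV_hl c ψ P j = - c P * ψ P ^ j := by
  obtain ⟨i, rfl⟩ : ∃ i, j = i + 1 := ⟨j - 1, by omega⟩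
  rw [Nat.add_sub_cancel]
  have h10 : (1 : ℂ) ≠ -1 := by norm_num
  have h10' : (-1 : ℂ) ≠ 1 := by norm_num
  rcases h with h | h | ⟨h, h'⟩
  · simp only [CNV_hl, h, if_true]
    push_cast
    ring
  · simp only [CNV_hl, h, if_neg h10', if_true]
    rcases Nat.even_or_odd i with hi | hi
    · have : ¬ Even (i + 1) := by
        rw [Nat.not_even_iff_odd]; exact hi.add_one
      rw [if_pos hi, if_neg this]
      ring
    · have h1 : ¬ Even i := by rwa [Nat.not_even_iff_odd]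
      have h2 : Even (i + 1) := hi.add_one
      rw [if_neg h1, if_pos h2]
      ring
  · simp only [CNV_hl, h, h']
    simp

theorem CNV_hl_norm {c ψ : F[X] → ℂ} (hψ : ∀ f, ‖ψ f‖ ≤ 1) (P : F[X]) {j : ℕ} (hj : 1 ≤ j) :
    ‖CNV_hl c ψ P j‖ ≤ ((j - 1 : ℕ) : ℝ) := by
  have hp : ‖ψ P ^ j‖ ≤ 1 := by
    rw [norm_pow]
    exact pow_le_one₀ (norm_nonneg _) (hψ P)
  unfold CNV_hl
  split_ifs with h1 h2 h3 h4
  · rw [norm_mul]
    have : ‖(1 - (j : ℂ))‖ = ((j - 1 : ℕ) : ℝ) := by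
      have h5 : (1 - (j : ℂ)) = -(((j - 1 : ℕ) : ℝ) : ℂ) := by
        push_cast [Nat.cast_sub hj]
        ring
      rw [h5, norm_neg, Complex.norm_real, Real.norm_eq_abs, abs_of_nonneg (Nat.cast_nonneg _)]
    rw [this]
    exact mul_le_of_le_one_right (Nat.cast_nonneg _) hp
  · refine hp.trans ?_
    have : 2 ≤ j := by
      rcases h3 with ⟨r, hr⟩
      omega
    have : 1 ≤ j - 1 := by omega
    exact_mod_cast this
  · simp
  · omega
  · simp

/-- The multiplicative function. -/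
noncomputable def CNV_h (c ψ : F[X] → ℂ) (e : F[X]) : ℂ := ∏ P ∈ pf e, CNV_hl c ψ P (vv P e)

theorem CNV_h_norm {c ψ : F[X] → ℂ} (hψ : ∀ f, ‖ψ f‖ ≤ 1) (e : F[X]) :
    ‖CNV_h c ψ e‖ ≤ (kk e : ℝ) := by
  unfold CNV_h kk
  rw [norm_prod, Nat.cast_prod]
  exact Finset.prod_le_prod (fun _ _ => norm_nonneg _)
    (fun P hP => CNV_hl_norm hψ P (CNV_mem_pf_iff.1 hP))

theorem CNV_mu {c ψ : F[X] → ℂ} (hc : CMul c) (hψ : CMul ψ) {g : F[X]} (hg : g.Monic)
    (hs : Squarefree g) : mu g * (c g * ψ g) = ∏ P ∈ pf g, (-(c P * ψ P)) := by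
  classical
  have h1 : c g * ψ g = ∏ P ∈ pf g, (c P * ψ P) := by
    rw [Finset.prod_mul_distrib, ← CNV_cmul_prod1 hc, ← CNV_cmul_prod1 hψ, CNV_sqf_prod hg hs]
  rw [h1, mu, if_pos hs, Finset.prod_neg]

open Classical in
theorem CNV_term {c ψ : F[X] → ℂ} (hc : CMul c) (hψ : CMul ψ) {g e : F[X]} (hg : g.Monic)
    (he : e.Monic) (hs : Squarefree g) :
    mu g * (c g * ψ g) * CNV_h c ψ e =
      (∏ P ∈ pf g, (-(c P * ψ P) * CNV_hl c ψ P (vv P (g * e) - 1))) *
        ∏ P ∈ pf (g * e) \ pf g, CNV_hl c ψ P (vv P (g * e)) := by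
  classical
  rw [CNV_mu hc hψ hg hs, Finset.prod_mul_distrib, mul_assoc]
  congr 1
  have h1 : CNV_h c ψ e = ∏ P ∈ pf (g * e), CNV_hl c ψ P (vv P e) := by
    unfold CNV_h
    refine Finset.prod_subset ?_ ?_
    · rw [mul_comm]
      exact CNV_pf_mul_left he.ne_zero hg.ne_zero
    · intro P _ hP
      rw [CNV_not_mem_pf hP, CNV_hl_zero]
  rw [h1, ← Finset.prod_sdiff (CNV_pf_mul_left hg.ne_zero he.ne_zero), mul_comm]
  congr 1
  · refine Finset.prod_congr rfl fun P hP => ?_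
    rw [CNV_vv_mul P hg.ne_zero he.ne_zero, CNV_sqf hg hs hP, Nat.add_sub_cancel_left]
  · refine Finset.prod_congr rfl fun P hP => ?_
    rw [CNV_vv_mul P hg.ne_zero he.ne_zero, CNV_not_mem_pf (Finset.mem_sdiff.1 hP).2, zero_add]

/-- The pairs. -/
noncomputable def CNV_U (F : Type) [Field F] [Fintype F] (N : ℕ) : Finset (F[X] × F[X]) :=
  open Classical in
  (Finset.range (N + 1)).biUnion (fun i => Mon F i ×ˢ Mon F (N - i))

theorem CNV_mem_U {N : ℕ} {p : F[X] × F[X]} :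
    p ∈ CNV_U F N ↔ p.1.Monic ∧ p.2.Monic ∧ p.1.natDegree + p.2.natDegree = N := by
  classical
  unfold CNV_U
  simp only [Finset.mem_biUnion, Finset.mem_range, Finset.mem_product, mem_Mon]
  constructor
  · rintro ⟨i, hi, ⟨h1, h2⟩, h3, h4⟩
    exact ⟨h1, h3, by omega⟩
  · rintro ⟨h1, h2, h3⟩
    exact ⟨p.1.natDegree, by omega, ⟨h1, rfl⟩, h2, by omega⟩

theorem CNV_sum_U (N : ℕ) (φ : F[X] × F[X] → ℂ) :
    ∑ p ∈ CNV_U F N, φ p =
      ∑ i ∈ Finset.range (N + 1), ∑ g ∈ Mon F i, ∑ e ∈ Mon F (N - i), φ (g, e) := by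
  classical
  unfold CNV_U
  rw [Finset.sum_biUnion]
  · refine Finset.sum_congr rfl fun i _ => ?_
    rw [Finset.sum_product]
  · intro i _ j _ hij
    rw [Function.onFun, Finset.disjoint_left]
    intro p hp hp'
    rw [Finset.mem_product, mem_Mon, mem_Mon] at hp hp'
    exact hij (hp.1.2.symm.trans hp'.1.2)

open Classical in
theorem CNV_nf_prod {s : Finset F[X]} (hs : ∀ P ∈ s, P.Monic ∧ Irreducible P) :
    UniqueFactorizationMonoid.normalizedFactors (∏ P ∈ s, P) = s.val := by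
  classical
  induction s using Finset.induction_on with
  | empty => simp
  | insert a s ha ih =>
    rw [Finset.prod_insert ha, UniqueFactorizationMonoid.normalizedFactors_mul
      (hs a (Finset.mem_insert_self a s)).2.ne_zero ?_, ih ?_, Finset.insert_val_of_notMem ha,
      UniqueFactorizationMonoid.normalizedFactors_irreducible (hs a (Finset.mem_insert_self a s)).2,
      (hs a (Finset.mem_insert_self a s)).1.normalize_eq_self, Multiset.singleton_add]
    · exact fun P hP => hs P (Finset.mem_insert_of_mem hP)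
    · exact Finset.prod_ne_zero_iff.2 fun P hP => (hs P (Finset.mem_insert_of_mem hP)).2.ne_zero

theorem CNV_point {c ψ : F[X] → ℂ} (hc : CMul c) (hψ : CMul ψ)
    (h : ∀ P, P.Monic → Irreducible P → c P = 1 ∨ c P = -1 ∨ (c P = 0 ∧ ψ P = 0)) {N : ℕ}
    {f : F[X]} (hf : f ∈ Mon F N) :
    wf c f * ψ f = open Classical in ∑ p ∈ (CNV_U F N).filter (fun p => p.1 * p.2 = f),
      mu p.1 * (c p.1 * ψ p.1) * CNV_h c ψ p.2 := by
  classical
  rw [mem_Mon] at hf
  obtain ⟨hfm, hfN⟩ := hf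
  have h1 : wf c f * ψ f = ∏ P ∈ pf f,
      (-(c P * ψ P) * CNV_hl c ψ P (vv P f - 1) + CNV_hl c ψ P (vv P f)) := by
    have h2 : ψ f = ∏ P ∈ pf f, ψ P ^ vv P f := by
      conv_lhs => rw [← CNV_prod_pow hfm]
      rw [CNV_cmul_prod hψ]
    rw [h2, wf, ← Finset.prod_mul_distrib]
    refine Finset.prod_congr rfl fun P hP => ?_
    have h2 := (mem_pf hfm.ne_zero).1 hP
    rw [CNV_local (h P h2.1 h2.2.1) (CNV_mem_pf_iff.1 hP)]
  rw [h1, Finset.prod_add]
  symm
  rw [← Finset.sum_filter_add_sum_filter_not _ (fun p : F[X] × F[X] => Squarefree p.1)]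
  rw [Finset.sum_eq_zero (s := Finset.filter (fun p : F[X] × F[X] => ¬ Squarefree p.1) _), add_zero]
  · refine Finset.sum_nbij (fun p => pf p.1) ?_ ?_ ?_ ?_
    · intro p hp
      simp only [Finset.mem_filter, CNV_mem_U] at hp
      obtain ⟨⟨⟨hg, he, hd⟩, hm⟩, hs⟩ := hp
      rw [Finset.mem_powerset, ← hm]
      exact CNV_pf_mul_left hg.ne_zero he.ne_zero
    · intro p hp p' hp' hpp
      simp only [Finset.coe_filter, Finset.mem_filter, CNV_mem_U, Set.mem_setOf_eq] at hp hp'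
      obtain ⟨⟨⟨hg, he, hd⟩, hm⟩, hs⟩ := hp
      obtain ⟨⟨⟨hg', he', hd'⟩, hm'⟩, hs'⟩ := hp'
      have h3 : p.1 = p'.1 := by
        rw [← CNV_sqf_prod hg hs, ← CNV_sqf_prod hg' hs']
        simp only at hpp
        rw [hpp]
      refine Prod.ext h3 ?_
      have h4 : p.1 * p.2 = p.1 * p'.2 := by rw [hm, h3, hm']
      exact mul_left_cancel₀ hg.ne_zero h4
    · intro S hS
      rw [Finset.coe_powerset, Set.mem_preimage, Set.mem_powerset_iff, Finset.coe_subset] at hS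
      have h5 : ∀ P ∈ S, P.Monic ∧ Irreducible P := fun P hP =>
        ⟨((mem_pf hfm.ne_zero).1 (hS hP)).1, ((mem_pf hfm.ne_zero).1 (hS hP)).2.1⟩
      have hgm : (∏ P ∈ S, P).Monic := monic_prod_of_monic _ _ fun P hP => (h5 P hP).1
      have h6 : (∏ P ∈ S, P) ∣ f := by
        rw [UniqueFactorizationMonoid.dvd_iff_normalizedFactors_le_normalizedFactors hgm.ne_zero
          hfm.ne_zero, CNV_nf_prod h5, Multiset.le_iff_subset S.nodup]
        intro P hP
        have := hS hP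
        unfold pf at this
        exact Multiset.mem_toFinset.1 this
      obtain ⟨e, he⟩ := h6
      have hem : e.Monic := hgm.of_mul_monic_left (he ▸ hfm)
      have hpf : pf (∏ P ∈ S, P) = S := by
        unfold pf
        rw [CNV_nf_prod h5]
        exact Finset.val_toFinset S
      refine ⟨(∏ P ∈ S, P, e), ?_, hpf⟩
      simp only [Finset.coe_filter, Finset.mem_filter, CNV_mem_U, Set.mem_setOf_eq]
      refine ⟨⟨⟨hgm, hem, ?_⟩, he.symm⟩, ?_⟩
      · rw [← hfN, he, hgm.natDegree_mul hem]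
      · rw [UniqueFactorizationMonoid.squarefree_iff_nodup_normalizedFactors hgm.ne_zero,
          CNV_nf_prod h5]
        exact S.nodup
    · intro p hp
      simp only [Finset.mem_filter, CNV_mem_U] at hp
      obtain ⟨⟨⟨hg, he, hd⟩, hm⟩, hs⟩ := hp
      rw [CNV_term hc hψ hg he hs, hm]
  · intro p hp
    rw [Finset.mem_filter] at hp
    rw [mu, if_neg hp.2]
    ring

end

theorem s_CNV (F : Type) [Field F] [Fintype F] : S_CNV F := by
  classical
  intro c ψ hc hψ hb h N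
  have h1 : ∑ f ∈ Mon F N, wf c f * ψ f = ∑ p ∈ CNV_U F N,
      mu p.1 * (c p.1 * ψ p.1) * CNV_h c ψ p.2 := by
    rw [← Finset.sum_fiberwise_of_maps_to (s := CNV_U F N) (t := Mon F N)
      (g := fun p : F[X] × F[X] => p.1 * p.2) ?_]
    · refine Finset.sum_congr rfl fun f hf => ?_
      rw [CNV_point hc hψ h hf]
    · intro p hp
      rw [CNV_mem_U] at hp
      rw [mem_Mon]
      refine ⟨hp.1.mul hp.2.1, ?_⟩
      rw [hp.1.natDegree_mul hp.2.1, hp.2.2]
  rw [h1, CNV_sum_U]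
  refine (norm_sum_le _ _).trans (Finset.sum_le_sum fun i _ => ?_)
  have h2 : ∑ g ∈ Mon F i, ∑ e ∈ Mon F (N - i),
      mu (g, e).1 * (c (g, e).1 * ψ (g, e).1) * CNV_h c ψ (g, e).2 =
      mm (fun f => c f * ψ f) i * ∑ e ∈ Mon F (N - i), CNV_h c ψ e := by
    unfold mm
    rw [Finset.sum_mul_sum]
  rw [h2, norm_mul]
  refine mul_le_mul_of_nonneg_left ?_ (norm_nonneg _)
  refine (norm_sum_le _ _).trans ?_
  rw [Nat.cast_sum]
  exact Finset.sum_le_sum fun e _ => CNV_h_norm hb e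

end Pool.RN
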