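import Pool.Agent.H48.RN.Stmts3

set_option autoImplicit false
set_option linter.unusedSectionVars false
set_option linter.deprecated false

namespace Pool.RN

open Polynomial

section

variable {k : Type} [Field k]

/-- Zero or of order at least `-d`. -/
def ORD_G (d : ℕ) (x : EE k) : Prop := x = 0 ∨ -(d : ℤ) ≤ od x

theorem ORD_G_zero (d : ℕ) : ORD_G d (0 : EE k) := Or.inl rfl

theorem ORD_G_mono {d e : ℕ} (h : d ≤ e) {x : EE k} (hx : ORD_G d x) : ORD_G e x := by
  rcases hx with hx | hx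
  · exact Or.inl hx
  · right
    have : (d : ℤ) ≤ e := by exact_mod_cast h
    omega

theorem ORD_G_add {d : ℕ} {x y : EE k} (hx : ORD_G d x) (hy : ORD_G d y) : ORD_G d (x + y) := by
  rcases hx with hx | hx
  · rw [hx, zero_add]; exact hy
  rcases hy with hy | hy
  · rw [hy, add_zero]; exact Or.inr hx
  by_cases h : x + y = 0
  · exact Or.inl h
  · right
    exact (le_min hx hy).trans (od_add h)

theorem ORD_G_sum {d : ℕ} {ι : Type} (s : Finset ι) (f : ι → EE k)
    (h : ∀ i ∈ s, ORD_G d (f i)) : ORD_G d (∑ i ∈ s, f i) := by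
  classical
  induction s using Finset.induction_on with
  | empty => exact ORD_G_zero d
  | insert a s ha ih =>
    rw [Finset.sum_insert ha]
    exact ORD_G_add (h a (Finset.mem_insert_self a s))
      (ih fun i hi => h i (Finset.mem_insert_of_mem hi))

theorem ORD_G_mul {d e : ℕ} {x y : EE k} (hx : ORD_G d x) (hy : ORD_G e y) :
    ORD_G (d + e) (x * y) := by
  rcases hx with hx | hx
  · rw [hx, zero_mul]; exact ORD_G_zero _
  rcases hy with hy | hy
  · rw [hy, mul_zero]; exact ORD_G_zero _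
  by_cases h1 : x = 0
  · rw [h1, zero_mul]; exact ORD_G_zero _
  by_cases h2 : y = 0
  · rw [h2, mul_zero]; exact ORD_G_zero _
  right
  rw [od_mul h1 h2]
  push_cast
  omega

theorem ORD_G_const (c : k) : ORD_G 0 (algebraMap k (EE k) c) := by
  right
  rw [od_algebraMap]
  simp

theorem ORD_G_one : ORD_G 0 (1 : EE k) := by
  have := ORD_G_const (k := k) 1
  rwa [map_one] at this

theorem ORD_G_pow {d : ℕ} {x : EE k} (hx : ORD_G d x) (n : ℕ) : ORD_G (d * n) (x ^ n) := by
  induction n with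
  | zero => rw [pow_zero, Nat.mul_zero]; exact ORD_G_one
  | succ n ih =>
    rw [pow_succ, Nat.mul_succ]
    exact ORD_G_mul ih hx

theorem ORD_G_prod {ι : Type} (s : Finset ι) (f : ι → EE k) (n : ι → ℕ)
    (h : ∀ i ∈ s, ORD_G (n i) (f i)) : ORD_G (∑ i ∈ s, n i) (∏ i ∈ s, f i) := by
  classical
  induction s using Finset.induction_on with
  | empty => simpa using ORD_G_one (k := k)
  | insert a s ha ih =>
    rw [Finset.prod_insert ha, Finset.sum_insert ha]
    exact ORD_G_mul (h a (Finset.mem_insert_self a s))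
      (ih fun i hi => h i (Finset.mem_insert_of_mem hi))

theorem ORD_od_prod {ι : Type} (s : Finset ι) (f : ι → EE k) (h : ∀ i ∈ s, f i ≠ 0) :
    od (∏ i ∈ s, f i) = ∑ i ∈ s, od (f i) := by
  classical
  induction s using Finset.induction_on with
  | empty =>
    have := od_algebraMap (k := k) 1
    rw [map_one] at this
    simpa using this
  | insert a s ha ih =>
    rw [Finset.prod_insert ha, Finset.sum_insert ha, od_mul (h a (Finset.mem_insert_self a s)) ?_,
      ih fun i hi => h i (Finset.mem_insert_of_mem hi)]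
    exact Finset.prod_ne_zero_iff.2 fun i hi => h i (Finset.mem_insert_of_mem hi)

end

section

variable {F k : Type} [Field F] [Fintype F] [Field k] [Algebra F k]

theorem ORD_G_xx : ORD_G (Fintype.card F - 1) (xx F k) := by
  right
  have h1 : xx F k = (-1 : k) • ww k (1 - (Fintype.card F : ℤ)) := by
    rw [neg_one_smul]
    rfl
  rw [h1, od_smul (neg_ne_zero.2 one_ne_zero), od_ww]
  have := Fintype.card_pos (α := F)
  omega

theorem ORD_ev {m d : ℕ} {Y : (EE k)[X]} (hY : ∀ i, Y.coeff i ≠ 0 → -1 ≤ od (Y.coeff i))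
    {P : PP k m} (hP : P ∈ WW F k m d) : ORD_G d (ev m (xx F k) Y P) := by
  have hY' : ∀ i, ORD_G 1 (Y.coeff i) := by
    intro i
    by_cases h : Y.coeff i = 0
    · exact Or.inl h
    · exact Or.inr (hY i h)
  rw [P.as_sum, map_sum]
  refine ORD_G_sum _ _ fun s hs => ?_
  have hs' : wt F s ≤ d := hP s hs
  refine ORD_G_mono hs' ?_
  unfold ev
  rw [MvPolynomial.aeval_monomial, Finsupp.prod_fintype _ _ (fun i => pow_zero _),
    Fintype.prod_option]
  have h1 : ORD_G (0 + ((Fintype.card F - 1) * s none + ∑ i, 1 * s (some i)))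
      (algebraMap k (EE k) (MvPolynomial.coeff s P) *
      ((xx F k) ^ s none * ∏ i : Fin m, (Y.coeff i) ^ s (some i))) := by
    refine ORD_G_mul (ORD_G_const _) (ORD_G_mul (ORD_G_pow ORD_G_xx _) ?_)
    exact ORD_G_prod _ _ _ fun i _ => ORD_G_pow (hY' i) _
  have h2 : 0 + ((Fintype.card F - 1) * s none + ∑ i, 1 * s (some i)) = wt F s := by
    unfold wt
    simp
  rw [h2] at h1
  exact h1

theorem ORD_act_act (M : F[X]) (hM : M.Monic) {L : Type} [Field L] [Algebra F L]
    (g g' : F[X]) (Y : L[X]) : act M g (act M g' Y) = act M (g * g') Y := by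
  unfold act
  set N := M.map (algebraMap F L)
  have hN : N.Monic := hM.map _
  have h1 : (g'.map (algebraMap F L) * Y) %ₘ N =
      g'.map (algebraMap F L) * Y - N * ((g'.map (algebraMap F L) * Y) /ₘ N) := by
    rw [modByMonic_eq_sub_mul_div]
  rw [h1, mul_sub, sub_modByMonic]
  have h2 : (g.map (algebraMap F L) * (N * ((g'.map (algebraMap F L) * Y) /ₘ N))) %ₘ N = 0 := by
    rw [modByMonic_eq_zero_iff_dvd hN]
    exact ⟨g.map (algebraMap F L) * ((g'.map (algebraMap F L) * Y) /ₘ N), by ring⟩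
  rw [h2, sub_zero, Polynomial.map_mul, mul_assoc]

theorem ORD_act_congr (M : F[X]) (hM : M.Monic) {L : Type} [Field L] [Algebra F L]
    {g g' : F[X]} (h : M ∣ g - g') (Y : L[X]) : act M g Y = act M g' Y := by
  unfold act
  have hN : (M.map (algebraMap F L)).Monic := hM.map _
  rw [← sub_eq_zero, ← sub_modByMonic, modByMonic_eq_zero_iff_dvd hN, ← sub_mul,
    ← Polynomial.map_sub]
  exact dvd_mul_of_dvd_left (Polynomial.map_dvd _ h) _

theorem ORD_act_one (M : F[X]) (hM : M.Monic) {L : Type} [Field L] [Algebra F L]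
    {Y : L[X]} (hY : Y.degree < M.degree) : act M 1 Y = Y := by
  unfold act
  rw [Polynomial.map_one, one_mul, (modByMonic_eq_self_iff (hM.map _)).2]
  rwa [degree_map]

theorem ORD_mod {M g : F[X]} : M ∣ g %ₘ M - g := by
  rw [modByMonic_eq_sub_mul_div]
  exact ⟨-(g /ₘ M), by ring⟩

end

theorem s_ORD {F k : Type} [Field F] [Fintype F] [Field k] [Algebra F k] [IsAlgClosed k]
    [Algebra.IsAlgebraic F k] (M : F[X]) (Y : (EE k)[X]) (hM : M.Monic) (hm : 1 ≤ M.natDegree)
    (hY : Good M Y)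
    (hGRP : S_GRP M Y) (hINV : S_INV M Y) (hTRX : S_TRX F k) (hEVA : S_EVA F k)
    (hMLT : S_MLT F k) (hSWT : S_SWT F k) : S_ORD M Y := by
  classical
  intro d f hf hf0
  obtain ⟨P, hP, rfl⟩ := hf
  rw [AlgHom.toLinearMap_apply] at hf0 ⊢
  have hdeg : Y.degree < M.degree := hY.sol.deg
  -- the conjugates
  have hfg : ∀ g : F[X], ev M.natDegree (xx F k) (act M g Y) P =
      ev M.natDegree (xx F k) Y (sub k M g P) := fun g =>
    (hEVA M hM hm (EE k) (xx F k) Y g hdeg).2.2 P
  have hdeg' : ∀ g : F[X], (act M g Y).degree < M.degree := fun g =>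
    (hEVA M hM hm (EE k) (xx F k) Y g hdeg).1
  have hfgP : ∀ g g' : F[X], ∀ P : PP k M.natDegree,
      ev M.natDegree (xx F k) (act M g' Y) (sub k M g P) =
      ev M.natDegree (xx F k) (act M (g * g') Y) P := by
    intro g g' P
    rw [← ORD_act_act M hM g g' Y]
    exact ((hEVA M hM hm (EE k) (xx F k) (act M g' Y) g (hdeg' g')).2.2 P).symm
  have hGf : ∀ g : F[X], ORD_G d (ev M.natDegree (xx F k) (act M g Y) P) := by
    intro g
    rw [hfg g]
    exact ORD_ev hY.ord (hSWT M g d P hP)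
  have hne : ∀ g ∈ HH M Y, ev M.natDegree (xx F k) (act M g Y) P ≠ 0 := by
    intro g hg h0
    obtain ⟨g', hg', hgg'⟩ := hGRP.2.2.2.1 g hg
    rw [hfg g] at h0
    have h1 := (mem_HH.1 hg').2.2 _ h0
    rw [hfgP, ORD_act_congr M hM hgg', ORD_act_one M hM hdeg] at h1
    exact hf0 h1
  -- the product
  have hinv : ∀ g' ∈ HH M Y, ev M.natDegree (xx F k) (act M g' Y) (∏ g ∈ HH M Y, sub k M g P) =
      ev M.natDegree (xx F k) Y (∏ g ∈ HH M Y, sub k M g P) := by
    intro g' hg'
    rw [map_prod, map_prod]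
    have h1 : ∀ g ∈ HH M Y, ev M.natDegree (xx F k) (act M g' Y) (sub k M g P) =
        ev M.natDegree (xx F k) (act M ((g * g') %ₘ M) Y) P := by
      intro g _
      rw [hfgP, ORD_act_congr M hM ORD_mod]
    have h2 : ∀ g ∈ HH M Y, ev M.natDegree (xx F k) Y (sub k M g P) =
        ev M.natDegree (xx F k) (act M g Y) P := fun g _ => (hfg g).symm
    rw [Finset.prod_congr rfl h1, Finset.prod_congr rfl h2]
    have h3 : Set.InjOn (fun g : F[X] => (g * g') %ₘ M) (HH M Y : Set F[X]) := by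
      intro a ha b hb hab
      simp only at hab
      rw [← sub_eq_zero, ← sub_modByMonic, modByMonic_eq_zero_iff_dvd hM, ← sub_mul] at hab
      have hcop : IsCoprime M g' := (mem_HH.1 hg').2.1.symm
      have h4 : M ∣ a - b := hcop.dvd_of_dvd_mul_right hab
      have h5 : (a - b).degree < M.degree :=
        (degree_sub_le _ _).trans_lt (max_lt (mem_HH.1 ha).1 (mem_HH.1 hb).1)
      exact sub_eq_zero.1 (eq_zero_of_dvd_of_degree_lt h4 h5)
    have h6 : (HH M Y).image (fun g : F[X] => (g * g') %ₘ M) = HH M Y := by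
      refine Finset.eq_of_subset_of_card_le ?_ ?_
      · intro x hx
        obtain ⟨a, ha, rfl⟩ := Finset.mem_image.1 hx
        exact hGRP.2.2.1 a ha g' hg'
      · rw [Finset.card_image_of_injOn h3]
    conv_rhs => rw [← h6]
    rw [Finset.prod_image h3]
  obtain ⟨p, hp⟩ := hINV _ hinv
  rw [map_prod] at hp
  have h2 : ∀ g ∈ HH M Y, ev M.natDegree (xx F k) Y (sub k M g P) =
      ev M.natDegree (xx F k) (act M g Y) P := fun g _ => (hfg g).symm
  rw [Finset.prod_congr rfl h2] at hp
  have hprod : ∏ g ∈ HH M Y, ev M.natDegree (xx F k) (act M g Y) P ≠ 0 :=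
    Finset.prod_ne_zero_iff.2 hne
  have hp0 : p ≠ 0 := by
    rintro rfl
    rw [map_zero] at hp
    exact hprod hp
  have h3 : od (∏ g ∈ HH M Y, ev M.natDegree (xx F k) (act M g Y) P) ≤ 0 := by
    rw [hp, (hTRX p hp0).2]
    have : (0 : ℤ) ≤ (((Fintype.card F - 1) * p.natDegree : ℕ) : ℤ) := Int.natCast_nonneg _
    omega
  rw [ORD_od_prod _ _ hne] at h3
  obtain ⟨g₁, hg₁, hg₁M⟩ := hGRP.2.1
  have h4 : ev M.natDegree (xx F k) (act M g₁ Y) P = ev M.natDegree (xx F k) Y P := by
    rw [ORD_act_congr M hM hg₁M, ORD_act_one M hM hdeg]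
  rw [← Finset.add_sum_erase _ _ hg₁, h4] at h3
  have h5 : ∀ g ∈ (HH M Y).erase g₁, -(d : ℤ) ≤ od (ev M.natDegree (xx F k) (act M g Y) P) := by
    intro g hg
    rcases hGf g with h | h
    · exact absurd h (hne g (Finset.mem_of_mem_erase hg))
    · exact h
  have h6 := Finset.card_nsmul_le_sum _ _ _ h5
  rw [Finset.card_erase_of_mem hg₁, nsmul_eq_mul] at h6
  have h7 : 1 ≤ (HH M Y).card := Finset.card_pos.2 ⟨g₁, hg₁⟩
  constructor
  · rcases hGf g₁ with h | h
    · exact absurd h (hne g₁ hg₁)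
    · rwa [h4] at h
  · have h8 : (((HH M Y).card - 1 : ℕ) : ℤ) = ((HH M Y).card : ℤ) - 1 := by
      push_cast [Nat.cast_sub h7]
      ring
    rw [h8] at h6
    push_cast
    have h9 : (0 : ℤ) ≤ d := Int.natCast_nonneg _
    nlinarith

end Pool.RN
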