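import Pool.Agent.H1.RN.CNV

set_option autoImplicit false
set_option linter.unusedSectionVars false
set_option linter.deprecated false

namespace Pool.RN

open Polynomial

section

variable {F : Type} [Field F] [Fintype F]

/-- The polynomials of degree at most `N` divisible by no element of `S`. -/
noncomputable def PHI_T (S : Finset F[X]) (N : ℕ) : Finset F[X] :=
  open Classical in (Pol F N).filter (fun a => ∀ P ∈ S, ¬ P ∣ a)

theorem PHI_not_dvd {P Q : F[X]} (hP : P.Monic) (hPi : Irreducible P) (hQ : Q.Monic)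
    (hQi : Irreducible Q) (h : P ≠ Q) : ¬ Q ∣ P := by
  intro hd
  have h1 : Associated Q P := hQi.associated_of_dvd hPi hd
  exact h (eq_of_monic_of_associated hP hQ h1.symm)

theorem PHI_card (hCRD : S_CRD F) (S : Finset F[X]) (hS : ∀ P ∈ S, P.Monic ∧ Irreducible P) :
    ∀ N : ℕ, ∑ P ∈ S, P.natDegree ≤ N → ((PHI_T S N).card : ℝ) =
      (Fintype.card F : ℝ) ^ (N + 1) * ∏ P ∈ S, (1 - ((Fintype.card F : ℝ) ^ P.natDegree)⁻¹) := by
  classical
  induction S using Finset.induction_on with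
  | empty =>
    intro N _
    have : PHI_T (∅ : Finset F[X]) N = Pol F N := by
      unfold PHI_T
      simp
    rw [this, hCRD.2 N]
    simp
  | insert P S hPS ih =>
    intro N hN
    have hPm := (hS P (Finset.mem_insert_self P S)).1
    have hPi := (hS P (Finset.mem_insert_self P S)).2
    have hS' : ∀ Q ∈ S, Q.Monic ∧ Irreducible Q := fun Q hQ => hS Q (Finset.mem_insert_of_mem hQ)
    rw [Finset.sum_insert hPS] at hN
    have ih1 := ih hS' N (by omega)
    have ih2 := ih hS' (N - P.natDegree) (by omega)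
    have h1 : PHI_T (insert P S) N = (PHI_T S N).filter (fun a => ¬ P ∣ a) := by
      ext a
      simp only [PHI_T, Finset.mem_filter, Finset.mem_insert, forall_eq_or_imp]
      tauto
    have h2 : ((PHI_T S N).filter (fun a => P ∣ a)).card = (PHI_T S (N - P.natDegree)).card := by
      symm
      refine Finset.card_nbij (fun b => P * b) ?_ ?_ ?_
      · intro b hb
        simp only [PHI_T, Finset.coe_filter, Finset.mem_filter, mem_Pol, Set.mem_setOf_eq] at hb ⊢
        refine ⟨⟨?_, ?_⟩, dvd_mul_right _ _⟩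
        · refine natDegree_mul_le.trans ?_
          omega
        · intro Q hQ hd
          rcases (hS' Q hQ).2.prime.dvd_or_dvd hd with h | h
          · exact PHI_not_dvd hPm hPi (hS' Q hQ).1 (hS' Q hQ).2 (fun h' => hPS (h' ▸ hQ)) h
          · exact hb.2 Q hQ h
      · intro b _ b' _ h
        exact mul_left_cancel₀ hPm.ne_zero h
      · intro a ha
        simp only [PHI_T, Finset.coe_filter, Finset.mem_filter, mem_Pol, Set.mem_setOf_eq] at ha
        obtain ⟨⟨h3, h4⟩, b, rfl⟩ := ha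
        refine ⟨b, ?_, rfl⟩
        simp only [PHI_T, Finset.coe_filter, Finset.mem_filter, mem_Pol, Set.mem_setOf_eq]
        refine ⟨?_, fun Q hQ hd => h4 Q hQ (dvd_mul_of_dvd_right hd _)⟩
        by_cases hb : b = 0
        · simp [hb]
        · rw [natDegree_mul hPm.ne_zero hb] at h3
          omega
    have h3 : ((PHI_T S N).filter (fun a => P ∣ a)).card +
        ((PHI_T S N).filter (fun a => ¬ P ∣ a)).card = (PHI_T S N).card :=
      Finset.card_filter_add_card_filter_not _
    have h4 : (((PHI_T S N).filter (fun a => P ∣ a)).card : ℝ) +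
        (((PHI_T S N).filter (fun a => ¬ P ∣ a)).card : ℝ) = ((PHI_T S N).card : ℝ) := by
      exact_mod_cast h3
    rw [h1, Finset.prod_insert hPS]
    rw [h2, ih1, ih2] at h4
    have hq : (Fintype.card F : ℝ) ≠ 0 := by
      have := Fintype.card_pos (α := F)
      positivity
    have h5 : (Fintype.card F : ℝ) ^ (N + 1) =
        (Fintype.card F : ℝ) ^ (N - P.natDegree + 1) * (Fintype.card F : ℝ) ^ P.natDegree := by
      rw [← pow_add]
      congr 1
      omega
    have h6 : (Fintype.card F : ℝ) ^ P.natDegree ≠ 0 := pow_ne_zero _ hq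
    have h7 : (((PHI_T S N).filter (fun a => ¬ P ∣ a)).card : ℝ) =
        (Fintype.card F : ℝ) ^ (N + 1) * (∏ P ∈ S, (1 - ((Fintype.card F : ℝ) ^ P.natDegree)⁻¹)) -
        (Fintype.card F : ℝ) ^ (N - P.natDegree + 1) *
          (∏ P ∈ S, (1 - ((Fintype.card F : ℝ) ^ P.natDegree)⁻¹)) := by linarith
    rw [h7, h5]
    field_simp

theorem PHI_prod_dvd {D : F[X]} (hD : D ≠ 0) : (∏ P ∈ pf D, P) ∣ D := by
  classical
  have h5 : ∀ P ∈ pf D, P.Monic ∧ Irreducible P := fun P hP =>
    ⟨((mem_pf hD).1 hP).1, ((mem_pf hD).1 hP).2.1⟩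
  have hgm : (∏ P ∈ pf D, P).Monic := monic_prod_of_monic _ _ fun P hP => (h5 P hP).1
  rw [UniqueFactorizationMonoid.dvd_iff_normalizedFactors_le_normalizedFactors hgm.ne_zero
    hD, CNV_nf_prod h5, Multiset.le_iff_subset (pf D).nodup]
  intro P hP
  unfold pf at hP
  exact Multiset.mem_toFinset.1 hP

theorem PHI_sum_le {D : F[X]} (hD : D ≠ 0) : ∑ P ∈ pf D, P.natDegree ≤ D.natDegree := by
  have h1 := natDegree_le_of_dvd (PHI_prod_dvd hD) hD
  rwa [natDegree_prod_of_monic _ _ (fun P hP => ((mem_pf hD).1 hP).1)] at h1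

theorem PHI_coprime {a D : F[X]} (hD : D ≠ 0) (h : ∀ P ∈ pf D, ¬ P ∣ a) : IsCoprime a D := by
  classical
  refine isCoprime_of_prime_dvd (fun h' => hD h'.2) ?_
  intro z hz hza hzD
  have h1 : (normalize z).Monic := monic_normalize hz.ne_zero
  have h2 : normalize z ∈ pf D := by
    rw [mem_pf hD]
    refine ⟨h1, ?_, ?_⟩
    · exact (associated_normalize z).irreducible_iff.1 hz.irreducible
    · exact (normalize_associated z).dvd.trans hzD
  exact h _ h2 ((normalize_associated z).dvd.trans hza)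

theorem PHI_d0 {q ε : ℝ} (hq : 2 ≤ q) (hε : 0 < ε) : ∃ d₀ : ℕ, ∀ d : ℕ, d₀ ≤ d →
    q ^ (-(ε * d)) ≤ 1 - (q ^ d)⁻¹ := by
  have hq1 : 1 < q := by linarith
  have h1 : Filter.Tendsto (fun d : ℕ => (q⁻¹) ^ d) Filter.atTop (nhds 0) :=
    tendsto_pow_atTop_nhds_zero_of_lt_one (by positivity) (inv_lt_one_of_one_lt₀ hq1)
  have h2 : Filter.Tendsto (fun d : ℕ => (q ^ (-ε)) ^ d) Filter.atTop (nhds 0) := by
    refine tendsto_pow_atTop_nhds_zero_of_lt_one (by positivity) ?_
    exact Real.rpow_lt_one_of_one_lt_of_neg hq1 (by linarith)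
  have h3 := h1.eventually_lt_const (show (0 : ℝ) < 1 / 2 by norm_num)
  have h4 := h2.eventually_lt_const (show (0 : ℝ) < 1 / 2 by norm_num)
  obtain ⟨d₀, hd₀⟩ := Filter.eventually_atTop.1 (h3.and h4)
  refine ⟨d₀, fun d hd => ?_⟩
  obtain ⟨h5, h6⟩ := hd₀ d hd
  rw [inv_pow] at h5
  have h7 : q ^ (-(ε * d)) = (q ^ (-ε)) ^ d := by
    rw [← Real.rpow_natCast, ← Real.rpow_mul (by linarith)]
    congr 1
    ring
  rw [h7]
  linarith

end

theorem s_PHI (F : Type) [Field F] [Fintype F] (hCRD : S_CRD F) : S_PHI F := by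
  classical
  intro ε hε
  have hq : (2 : ℝ) ≤ (Fintype.card F : ℝ) := by
    have := Fintype.one_lt_card (α := F)
    exact_mod_cast this
  have hq0 : (0 : ℝ) < (Fintype.card F : ℝ) := by linarith
  obtain ⟨d₀, hd₀⟩ := PHI_d0 hq hε
  refine ⟨(1 / 2) ^ (Pol F d₀).card, by positivity, ?_⟩
  intro D N hD hDN
  have hmon : ∀ P ∈ pf D, P.Monic ∧ Irreducible P := fun P hP =>
    ⟨((mem_pf hD).1 hP).1, ((mem_pf hD).1 hP).2.1⟩
  have h1 : ((PHI_T (pf D) N).card : ℝ) ≤ ({a ∈ (Pol F N : Set F[X]) | IsCoprime a D}.ncard : ℝ) := by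
    rw [← Set.ncard_coe_finset]
    have hfin : {a ∈ (Pol F N : Set F[X]) | IsCoprime a D}.Finite :=
      (Pol F N).finite_toSet.subset fun a ha => ha.1
    have := Set.ncard_le_ncard (s := (PHI_T (pf D) N : Set F[X])) ?_ hfin
    · exact_mod_cast this
    · intro a ha
      simp only [PHI_T, Finset.coe_filter, Set.mem_setOf_eq] at ha
      exact ⟨ha.1, PHI_coprime hD ha.2⟩
  refine le_trans ?_ h1
  rw [PHI_card hCRD (pf D) hmon N ((PHI_sum_le hD).trans hDN)]
  have hpos : ∀ P ∈ pf D, 1 ≤ P.natDegree := fun P hP => (hmon P hP).2.natDegree_pos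
  -- the lower bound for the product
  have h2 : ∀ P ∈ pf D, (if P.natDegree < d₀ then (1 / 2 : ℝ) else 1) *
      (Fintype.card F : ℝ) ^ (-(ε * P.natDegree)) ≤
      1 - ((Fintype.card F : ℝ) ^ P.natDegree)⁻¹ := by
    intro P hP
    split_ifs with h
    · have h3 : (Fintype.card F : ℝ) ^ (-(ε * P.natDegree)) ≤ 1 :=
        Real.rpow_le_one_of_one_le_of_nonpos (by linarith) (by
          have : (0 : ℝ) ≤ ε * P.natDegree := by positivity
          linarith)
      have h4 : ((Fintype.card F : ℝ) ^ P.natDegree)⁻¹ ≤ 1 / 2 := by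
        rw [one_div]
        apply inv_anti₀ (by norm_num)
        calc (2 : ℝ) ≤ (Fintype.card F : ℝ) := hq
          _ = (Fintype.card F : ℝ) ^ 1 := (pow_one _).symm
          _ ≤ _ := pow_le_pow_right₀ (by linarith) (hpos P hP)
      linarith
    · rw [one_mul]
      exact hd₀ _ (not_lt.1 h)
  have h3 : ∏ P ∈ pf D, ((if P.natDegree < d₀ then (1 / 2 : ℝ) else 1) *
      (Fintype.card F : ℝ) ^ (-(ε * P.natDegree))) ≤
      ∏ P ∈ pf D, (1 - ((Fintype.card F : ℝ) ^ P.natDegree)⁻¹) := by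
    refine Finset.prod_le_prod (fun P _ => ?_) h2
    split_ifs <;> positivity
  have h4 : ∏ P ∈ pf D, ((if P.natDegree < d₀ then (1 / 2 : ℝ) else 1) *
      (Fintype.card F : ℝ) ^ (-(ε * P.natDegree))) =
      (1 / 2) ^ ((pf D).filter (fun P => P.natDegree < d₀)).card *
        (Fintype.card F : ℝ) ^ (-(ε * ((∑ P ∈ pf D, P.natDegree : ℕ) : ℝ))) := by
    rw [Finset.prod_mul_distrib]
    congr 1
    · rw [Finset.prod_ite, Finset.prod_const, Finset.prod_const_one, mul_one]
    · rw [← Real.rpow_sum_of_pos hq0]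
      congr 1
      push_cast
      rw [Finset.mul_sum, Finset.sum_neg_distrib]
  have h5 : ((1 : ℝ) / 2) ^ (Pol F d₀).card ≤
      (1 / 2) ^ ((pf D).filter (fun P => P.natDegree < d₀)).card := by
    refine pow_le_pow_of_le_one (by norm_num) (by norm_num) (Finset.card_le_card ?_)
    intro P hP
    rw [Finset.mem_filter] at hP
    rw [mem_Pol]
    exact hP.2.le
  have h6 : (Fintype.card F : ℝ) ^ (-(ε * D.natDegree)) ≤
      (Fintype.card F : ℝ) ^ (-(ε * ((∑ P ∈ pf D, P.natDegree : ℕ) : ℝ))) := by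
    refine Real.rpow_le_rpow_of_exponent_le (by linarith) ?_
    have : ((∑ P ∈ pf D, P.natDegree : ℕ) : ℝ) ≤ (D.natDegree : ℝ) := by
      exact_mod_cast PHI_sum_le hD
    have := mul_le_mul_of_nonneg_left this hε.le
    linarith
  have h7 : (Fintype.card F : ℝ) ^ ((N : ℝ) - ε * D.natDegree) ≤
      (Fintype.card F : ℝ) ^ (N + 1) * (Fintype.card F : ℝ) ^ (-(ε * D.natDegree)) := by
    rw [sub_eq_add_neg, Real.rpow_add hq0, Real.rpow_natCast]
    refine mul_le_mul_of_nonneg_right ?_ (by positivity)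
    exact pow_le_pow_right₀ (by linarith) (Nat.le_succ N)
  calc (1 / 2) ^ (Pol F d₀).card * (Fintype.card F : ℝ) ^ ((N : ℝ) - ε * D.natDegree)
      ≤ (1 / 2) ^ ((pf D).filter (fun P => P.natDegree < d₀)).card *
        ((Fintype.card F : ℝ) ^ (N + 1) *
          (Fintype.card F : ℝ) ^ (-(ε * ((∑ P ∈ pf D, P.natDegree : ℕ) : ℝ)))) := by
        refine mul_le_mul h5 (h7.trans ?_) (by positivity) (by positivity)
        exact mul_le_mul_of_nonneg_left h6 (by positivity)
    _ = (Fintype.card F : ℝ) ^ (N + 1) *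
        ((1 / 2) ^ ((pf D).filter (fun P => P.natDegree < d₀)).card *
          (Fintype.card F : ℝ) ^ (-(ε * ((∑ P ∈ pf D, P.natDegree : ℕ) : ℝ)))) := by ring
    _ ≤ _ := by
        refine mul_le_mul_of_nonneg_left ?_ (by positivity)
        rw [← h4]
        exact h3

end Pool.RN
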